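import Pool.Agent.TH49.FC.Grp

set_option autoImplicit false

/-!
# Surgeries on the minimally twisted five chain link

The link consists of five round circles `C 1, ..., C 5` in the plane, placed counterclockwise
around a ring, where only (cyclically) consecutive circles meet, in an outer and an inner
crossing.  Circle `i` passes over circle `i + 1` at the outer and under it at the inner crossing
for the pairs `(1,2), (3,4), (5,1)`, and the other way round for the pairs `(2,3), (4,5)`.  All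
circles are oriented counterclockwise.  Slopes are measured with the preferred longitudes.
-/

namespace Pool.Agent.Results.MP_9ae2f3_gt.FiveChainLink

/-- A nontrivial group is left-orderable if it carries a strict total order that is invariant
under left multiplication. -/
def LeftOrderable (G : Type*) [Group G] : Prop :=
  Nontrivial G ∧ ∃ lt : G → G → Prop, IsStrictTotalOrder G lt ∧
    ∀ a b c : G, lt a b ↔ lt (c * a) (c * b)

/-- The ten arcs of the diagram: each circle passes under its neighbours exactly twice, so it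
consists of two arcs; `(i, false)` and `(i, true)` are those of circle `i + 1`.  They are named
and described one by one below. -/
abbrev Arc : Type := Fin 5 × Bool

/-- Circle 1 passes under circle 5 at their outer and under circle 2 at their inner crossing;
`T` is the arc of circle 1 through its outer crossing with circle 2, -/
def T : FreeGroup Arc := FreeGroup.of (0, false)
/-- and `B` the arc of circle 1 through its inner crossing with circle 5. -/
def B : FreeGroup Arc := FreeGroup.of (0, true)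
/-- Circle 2 passes under at its two outer crossings; `m2` is its arc through the inner
crossings, -/
def m2 : FreeGroup Arc := FreeGroup.of (1, false)
/-- and `n2` the remaining outermost arc. -/
def n2 : FreeGroup Arc := FreeGroup.of (1, true)
/-- Circle 3 passes under at its two inner crossings; `m3` is its arc through the outer
crossings, -/
def m3 : FreeGroup Arc := FreeGroup.of (2, false)
/-- and `n3` the remaining innermost arc. -/
def n3 : FreeGroup Arc := FreeGroup.of (2, true)
/-- Circle 4 passes under at its two outer crossings; `m4` is its arc through the inner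
crossings, -/
def m4 : FreeGroup Arc := FreeGroup.of (3, false)
/-- and `n4` the remaining outermost arc. -/
def n4 : FreeGroup Arc := FreeGroup.of (3, true)
/-- Circle 5 passes under at its two inner crossings; `m5` is its arc through the outer
crossings, -/
def m5 : FreeGroup Arc := FreeGroup.of (4, false)
/-- and `n5` the remaining innermost arc. -/
def n5 : FreeGroup Arc := FreeGroup.of (4, true)

/-- The Wirtinger relators of the ten crossings: for each crossing, the under arc on the right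
of the over arc is the conjugate `over * left * over⁻¹`. -/
def wirtinger : Set (FreeGroup Arc) :=
  {n2⁻¹ * (T * m2 * T⁻¹), B⁻¹ * (m2 * T * m2⁻¹),
   n2⁻¹ * (m3 * m2 * m3⁻¹), n3⁻¹ * (m2 * m3 * m2⁻¹),
   n4⁻¹ * (m3 * m4 * m3⁻¹), n3⁻¹ * (m4 * m3 * m4⁻¹),
   n4⁻¹ * (m5 * m4 * m5⁻¹), n5⁻¹ * (m4 * m5 * m4⁻¹),
   T⁻¹ * (m5 * B * m5⁻¹), n5⁻¹ * (B * m5 * B⁻¹)}

/-- The meridians used for the surgeries. -/
def meridian : Fin 5 → FreeGroup Arc := ![T, m2, m3, m4, m5]

/-- The corresponding preferred (0-framed) longitudes: the over arcs met by a parallel curve that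
starts at the meridian arc. -/
def longitude : Fin 5 → FreeGroup Arc :=
  ![m2⁻¹ * m5⁻¹, T⁻¹ * m3, m4⁻¹ * m2, m3⁻¹ * m5, B⁻¹ * m4]

/-- All relators: Wirtinger and surgery relators, for the slope `p / q = a i` on component
`i + 1`. -/
def relators (a : Fin 5 → ℚ) : Set (FreeGroup Arc) :=
  wirtinger ∪ {w | ∃ i, w = meridian i ^ (a i).num * longitude i ^ ((a i).den : ℤ)}

/-- The fundamental group of the closed 3-manifold obtained by surgery on the minimally twisted
five chain link with slope `a i` on component `i + 1`. -/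
abbrev SurgeryGroup (a : Fin 5 → ℚ) : Type := PresentedGroup (relators a)

open Pool.Agent.TH49.FC in
theorem eq_one_of_rel {H : Type*} [Group H] (hH : LeftOrderable H) {x y c e g : H}
    {p q : Fin 5 → ℤ} (hr : Region p q) (h : Rel x y c e g p q) :
    x = 1 ∧ y = 1 ∧ c = 1 ∧ e = 1 ∧ g = 1 := by
  classical
  obtain ⟨_, lt, hlt, hinv⟩ := hH
  let _ : LinearOrder H := linearOrderOfSTO lt
  have hinv' : ∀ a b c : H, a ≤ b ↔ c * a ≤ c * b := by
    intro a b c
    show (a = b ∨ lt a b) ↔ (c * a = c * b ∨ lt (c * a) (c * b))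
    rw [mul_right_inj, ← hinv]
  exact rel_trivial hinv' hr h

open Pool.Agent.TH49.FC in
theorem hom_trivial (a : Fin 5 → ℚ)
    (hr : Region (fun i => (a i).num) (fun i => ((a i).den : ℤ)))
    (H : Type*) [Group H] (hH : LeftOrderable H)
    (f : SurgeryGroup a →* H) (s : SurgeryGroup a) : f s = 1 := by
  set p : Fin 5 → ℤ := fun i => (a i).num with hp
  set q : Fin 5 → ℤ := fun i => ((a i).den : ℤ) with hq
  set F : FreeGroup Arc →* H := f.comp (PresentedGroup.mk (relators a)) with hF
  have rel : ∀ w ∈ relators a, F w = 1 := by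
    intro w hw
    show f (PresentedGroup.mk (relators a) w) = 1
    rw [show PresentedGroup.mk (relators a) w = 1 from
      (PresentedGroup.one_of_mem hw), map_one]
  have wr : ∀ a b : FreeGroup Arc, a⁻¹ * b ∈ wirtinger → F a = F b := by
    intro a b hab
    have := rel _ (Or.inl hab)
    rw [map_mul, map_inv, inv_mul_eq_one] at this
    exact this
  have w1 := wr _ _ (show n2⁻¹ * (T * m2 * T⁻¹) ∈ wirtinger by simp [wirtinger])
  have w2 := wr _ _ (show B⁻¹ * (m2 * T * m2⁻¹) ∈ wirtinger by simp [wirtinger])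
  have w3 := wr _ _ (show n2⁻¹ * (m3 * m2 * m3⁻¹) ∈ wirtinger by simp [wirtinger])
  have w4 := wr _ _ (show n3⁻¹ * (m2 * m3 * m2⁻¹) ∈ wirtinger by simp [wirtinger])
  have w5 := wr _ _ (show n4⁻¹ * (m3 * m4 * m3⁻¹) ∈ wirtinger by simp [wirtinger])
  have w6 := wr _ _ (show n3⁻¹ * (m4 * m3 * m4⁻¹) ∈ wirtinger by simp [wirtinger])
  have w7 := wr _ _ (show n4⁻¹ * (m5 * m4 * m5⁻¹) ∈ wirtinger by simp [wirtinger])
  have w8 := wr _ _ (show n5⁻¹ * (m4 * m5 * m4⁻¹) ∈ wirtinger by simp [wirtinger])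
  have w9 := wr _ _ (show T⁻¹ * (m5 * B * m5⁻¹) ∈ wirtinger by simp [wirtinger])
  have w10 := wr _ _ (show n5⁻¹ * (B * m5 * B⁻¹) ∈ wirtinger by simp [wirtinger])
  have s0 := rel _ (Or.inr ⟨0, rfl⟩)
  have s1 := rel _ (Or.inr ⟨1, rfl⟩)
  have s2 := rel _ (Or.inr ⟨2, rfl⟩)
  have s3 := rel _ (Or.inr ⟨3, rfl⟩)
  have s4 := rel _ (Or.inr ⟨4, rfl⟩)
  change F (T ^ p 0 * (m2⁻¹ * m5⁻¹) ^ q 0) = 1 at s0
  change F (m2 ^ p 1 * (T⁻¹ * m3) ^ q 1) = 1 at s1
  change F (m3 ^ p 2 * (m4⁻¹ * m2) ^ q 2) = 1 at s2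
  change F (m4 ^ p 3 * (m3⁻¹ * m5) ^ q 3) = 1 at s3
  change F (m5 ^ p 4 * (B⁻¹ * m4) ^ q 4) = 1 at s4
  simp only [map_mul, map_inv, map_zpow] at w1 w2 w3 w4 w5 w6 w7 w8 w9 w10 s0 s1 s2 s3 s4
  set c := F m2 with hc
  set y := F m3 with hy
  set e := F m4 with he
  set g := F m5 with hg
  set b := F B with hb
  set t := F T with ht
  -- the word for `T` in terms of `x = B⁻¹`
  have tx : t⁻¹ = g * b⁻¹ * g⁻¹ := by rw [w9]; group
  have R : Rel b⁻¹ y c e g p q := by
    constructor
    · -- `x` commutes with `c g`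
      have h1 : b = c * g * b * g⁻¹ * c⁻¹ := by
        calc b = c * t * c⁻¹ := w2
          _ = c * (g * b * g⁻¹) * c⁻¹ := by rw [w9]
          _ = _ := by group
      have h2 : b * (c * g) = c * g * b := by
        calc b * (c * g) = (c * g * b * g⁻¹ * c⁻¹) * (c * g) := by rw [← h1]
          _ = _ := by group
      exact (show Commute b (c * g) from h2).inv_left.eq
    · -- `c` commutes with `T⁻¹ m3`
      have h1 : t * c * t⁻¹ = y * c * y⁻¹ := by rw [← w1, ← w3]
      rw [← tx]
      calc c * (t⁻¹ * y) = t⁻¹ * (t * c * t⁻¹) * y := by group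
        _ = t⁻¹ * (y * c * y⁻¹) * y := by rw [h1]
        _ = _ := by group
    · -- `y` commutes with `e⁻¹ c`
      have h1 : c * y * c⁻¹ = e * y * e⁻¹ := by rw [← w4, ← w6]
      calc y * (e⁻¹ * c) = e⁻¹ * (e * y * e⁻¹) * c := by group
        _ = e⁻¹ * (c * y * c⁻¹) * c := by rw [h1]
        _ = _ := by group
    · have h1 : y * e * y⁻¹ = g * e * g⁻¹ := by rw [← w5, ← w7]
      calc e * (y⁻¹ * g) = y⁻¹ * (y * e * y⁻¹) * g := by group
        _ = y⁻¹ * (g * e * g⁻¹) * g := by rw [h1]
        _ = _ := by group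
    · have h1 : e * g * e⁻¹ = b * g * b⁻¹ := by rw [← w8, ← w10]
      calc g * (b⁻¹ * e) = b⁻¹ * (b * g * b⁻¹) * e := by group
        _ = b⁻¹ * (e * g * e⁻¹) * e := by rw [h1]
        _ = _ := by group
    · -- the surgery relator of circle 1, transported to the arc `B`
      have h1 : g⁻¹ * (t ^ p 0 * (c⁻¹ * g⁻¹) ^ q 0) * g = 1 := by rw [s0]; group
      have h2 : (g⁻¹ * t * g) ^ p 0 = g⁻¹ * t ^ p 0 * g := by
        have := conj_zpow (i := p 0) (a := g⁻¹) (b := t)
        simpa using this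
      have h3 : (g⁻¹ * (c⁻¹ * g⁻¹) * g) ^ q 0 = g⁻¹ * (c⁻¹ * g⁻¹) ^ q 0 * g := by
        have := conj_zpow (i := q 0) (a := g⁻¹) (b := c⁻¹ * g⁻¹)
        simpa using this
      have h4 : g⁻¹ * t * g = b := by rw [w9]; group
      have h5 : g⁻¹ * (c⁻¹ * g⁻¹) * g = (c * g)⁻¹ := by group
      have h6 : b⁻¹ ^ (-p 0) = b ^ p 0 := by simp
      rw [h6, ← h4, ← h5, h2, h3]
      calc g⁻¹ * t ^ p 0 * g * (g⁻¹ * (c⁻¹ * g⁻¹) ^ q 0 * g)
          = g⁻¹ * (t ^ p 0 * (c⁻¹ * g⁻¹) ^ q 0) * g := by
            simp only [mul_assoc, mul_inv_cancel_left]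
        _ = 1 := h1
    · rw [← tx]; exact s1
    · exact s2
    · exact s3
    · exact s4
  obtain ⟨f1, f2, f3, f4, f5⟩ := eq_one_of_rel hH hr R
  have f1' : b = 1 := by simpa using f1
  have ft : t = 1 := by rw [w9, f1', f5]; group
  have gens : ∀ a : Arc, F (FreeGroup.of a) = 1 := by
    rintro ⟨i, b'⟩
    fin_cases i <;> cases b'
    · exact ft
    · exact f1'
    · exact f3
    · show F n2 = 1
      rw [w1, f3]; group
    · exact f2
    · show F n3 = 1
      rw [w4, f2]; group
    · exact f4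
    · show F n4 = 1
      rw [w5, f4]; group
    · exact f5
    · show F n5 = 1
      rw [w8, f5]; group
  have hf : f = 1 := by
    apply PresentedGroup.ext
    intro a
    exact gens a
  rw [hf]; rfl

/-- The region of slopes: `a₁ ≥ 0`, `-1 ≤ a₂ < 0`, `a₃ ≥ -1`, `a₄ ≤ -1`, `a₅ ≤ -1`, and every
rational number `r` strictly between `a₁` and `-1 - a₄` is not an integer and its denominator
`d` satisfies `-a₅ ≤ 2 d - 1`. -/
def InRegion (a : Fin 5 → ℚ) : Prop :=
  0 ≤ a 0 ∧ (-1 ≤ a 1 ∧ a 1 < 0) ∧ -1 ≤ a 2 ∧ a 3 ≤ -1 ∧ a 4 ≤ -1 ∧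
    ∀ r : ℚ, a 0 < r → r < -1 - a 3 → r.den ≠ 1 ∧ -a 4 ≤ 2 * r.den - 1

theorem region_of (a : Fin 5 → ℚ) (h : InRegion a) :
    Pool.Agent.TH49.FC.Region (fun i => (a i).num) (fun i => ((a i).den : ℤ)) := by
  obtain ⟨h0, ⟨h1, h1'⟩, h2, h3, h4, h5⟩ := h
  have dpos : ∀ i, (0 : ℚ) < (a i).den := fun i => by exact_mod_cast (a i).den_pos
  have eq : ∀ i, a i = (a i).num / (a i).den := fun i => ((a i).num_div_den).symm
  refine ⟨fun i => by exact_mod_cast (a i).den_pos, Rat.num_nonneg.mpr h0, ?_,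
    Rat.num_neg.mpr h1', ?_, ?_, ?_, ?_⟩
  · rw [eq 1, le_div_iff₀ (dpos 1)] at h1
    have : (-((a 1).den : ℤ) : ℚ) ≤ ((a 1).num : ℚ) := by push_cast; linarith
    exact_mod_cast this
  · rw [eq 2, le_div_iff₀ (dpos 2)] at h2
    have : (-((a 2).den : ℤ) : ℚ) ≤ ((a 2).num : ℚ) := by push_cast; linarith
    exact_mod_cast this
  · rw [eq 3, div_le_iff₀ (dpos 3)] at h3
    have : ((a 3).num : ℚ) ≤ (-((a 3).den : ℤ) : ℚ) := by push_cast; linarith
    exact_mod_cast this
  · rw [eq 4, div_le_iff₀ (dpos 4)] at h4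
    have : ((a 4).num : ℚ) ≤ (-((a 4).den : ℤ) : ℚ) := by push_cast; linarith
    exact_mod_cast this
  · intro P Q hQ k1 k2
    have hQ' : (0 : ℚ) < Q := by exact_mod_cast (show (0 : ℤ) < Q by omega)
    have k1' : ((a 0).num : ℚ) * Q < P * (a 0).den := by exact_mod_cast k1
    have k2' : (P : ℚ) * (a 3).den < Q * (-(a 3).den - (a 3).num) := by exact_mod_cast k2
    have e3 : (a 3).num = a 3 * (a 3).den := by
      have := eq 3
      rw [eq_div_iff (dpos 3).ne'] at this
      exact this.symm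
    obtain ⟨m1, m2⟩ := h5 ((P : ℚ) / Q)
      (by rw [eq 0, div_lt_div_iff₀ (dpos 0) hQ']; exact k1')
      (by
        rw [div_lt_iff₀ hQ']
        rw [e3] at k2'
        have := dpos 3
        nlinarith)
    have m3 : ((P : ℚ) / Q).den ≤ Q.natAbs := by
      have h1 : ((P : ℚ) / Q) = Rat.divInt P Q := (Rat.divInt_eq_div P Q).symm
      rw [h1]
      refine Nat.le_of_dvd (by omega) ?_
      have := Rat.den_dvd P Q
      exact Int.natCast_dvd.mp this
    have m4 : 1 ≤ ((P : ℚ) / Q).den := ((P : ℚ) / Q).den_pos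
    refine ⟨by omega, ?_⟩
    have m5 : ((((P : ℚ) / Q).den : ℤ) : ℚ) ≤ Q := by
      exact_mod_cast (show (((P : ℚ) / Q).den : ℤ) ≤ Q by omega)
    push_cast at m5
    have m6 : -a 4 ≤ 2 * Q - 1 := by linarith
    rw [eq 4, ← neg_div, div_le_iff₀ (dpos 4)] at m6
    exact_mod_cast m6

/-- **Main result.** -/
theorem result (a : Fin 5 → ℚ) (h : InRegion a) :
    ¬ LeftOrderable (SurgeryGroup a) ∧
    ∀ (H : Type*) [Group H], LeftOrderable H → ∀ f : SurgeryGroup a →* H, ∀ s, f s = 1 := by
  have hr := region_of a h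
  refine ⟨fun hG => ?_, fun H _ hH f s => hom_trivial a hr H hH f s⟩
  obtain ⟨u, v, huv⟩ := hG.1
  have key := hom_trivial a hr (SurgeryGroup a) hG (MonoidHom.id _)
  exact huv (by
    have h1 := key u
    have h2 := key v
    simp only [MonoidHom.id_apply] at h1 h2
    rw [h1, h2])

end Pool.Agent.Results.MP_9ae2f3_gt.FiveChainLink
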